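import Pool.Agent.MT100D.Stmts
import Pool.Agent.MTL.Stmts
import Pool.Agent.Helper53_MTN.Core

/-! MTN: the fibres of one parameter families over the points of number fields. Definitions. -/

set_option autoImplicit false

namespace Pool.Agent.MTN

open Matrix Polynomial Pool.Agent.MT100 Pool.Agent.MT100G Pool.Agent.MT100A Pool.Agent.MT100D
  Pool.Agent.Helper78_MT Pool.Agent.MTL

/-! ### Points -/

/-- The algebraic numbers `w` of degree at most `m` whose height is at most `|w| ^ A`: `w` is a root of
a nonzero integral polynomial of degree at most `m` with coefficients of absolute value at most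
`|w| ^ A`.  (With `ε = 1/A` this is `|w| ≥ H(w) ^ ε`.) -/
def Pts (m A : ℕ) : Set ℂ :=
  {w | ∃ f : ℤ[X], f ≠ 0 ∧ f.natDegree ≤ m ∧ (∀ i, |(f.coeff i : ℝ)| ≤ ‖w‖ ^ A) ∧ aeval w f = 0}

/-! ### Relations -/

/-- the value of the form with the coefficients `c` at the tuple of matrices `A` -/
noncomputable def tf {ι d : Type} [Fintype ι] [DecidableEq ι] [Fintype d] {k : ℕ}
    (c : (ι × Fin k → d) → (ι × Fin k → d) → ℂ) (A : ι → Matrix d d ℂ) : ℂ :=
  ∑ β, ∑ α, c β α * ∏ s : ι × Fin k, A s.1 (β s) (α s)

/-- the value of a polynomial at a tuple of matrices -/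
noncomputable def pv {ι d : Type} (A : ι → Matrix d d ℂ) (p : MvPolynomial (ι × d × d) ℂ) : ℂ :=
  MvPolynomial.eval (fun x => A x.1 x.2.1 x.2.2) p

/-- A lower bound for the number of values at `1/w` of the power series `h` which are linearly
independent over the field `ℚ(w)`: let `N` be a space of relations with coefficients in `ℚ(w)` between
these values and `Z` a space which contains the values at `1/w` of all the relations over `ℚ[X]` between
the `h i`; then the codimension of `N` is at least `η` times the codimension of `Z`. -/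
def Lb {X : Type} [Fintype X] (η : ℝ) (h : X → PowerSeries ℚ) (w : ℂ) : Prop :=
  ∀ N Z : Submodule (IntermediateField.adjoin ℚ {w}) (X → IntermediateField.adjoin ℚ {w}),
    (∀ a ∈ N, ∑ i, (a i : ℂ) * evC (h i) w⁻¹ = 0) →
    (∀ p : X → ℚ[X], ∑ i, ((p i : ℚ[X]) : PowerSeries ℚ) * h i = 0 →
      ∀ a : X → IntermediateField.adjoin ℚ {w}, (∀ i, (a i : ℂ) = aeval w⁻¹ (p i)) → a ∈ Z) →
    η * ((Fintype.card X : ℝ) - Module.finrank (IntermediateField.adjoin ℚ {w}) Z) ≤
      (Fintype.card X : ℝ) - Module.finrank (IntermediateField.adjoin ℚ {w}) N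

/-! ### Families at complex points -/

section fam
variable {d : Type} [Fintype d] [DecidableEq d]

/-- the value of the translate at the complex point `1/w` -/
noncomputable def tvC (F : Family d) (κ : ℕ) (w : ℂ) : Matrix d d ℂ :=
  (F.T κ).map (fun f => evC f w⁻¹)

/-- `V` is a polarised Hodge structure of weight `w` on the flat sections with a polarisation which is
invariant under the monodromy and with the Hodge filtration given by the periods at the complex point
`x`. -/
def FibreC (F : Family d) (lev : d → ℕ) (P : Matrix d d ℂ) (w : ℕ) (x : ℂ) (E : Matrix d d ℚ)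
    (V : ℕ → Submodule ℂ (d → ℂ)) : Prop :=
  PolHodge w E V ∧ F.InvM P E ∧ F.HasFil lev P x V

/-- The theorem of the fixed part (Griffiths, Deligne, Schmid) for the points `x` with `|x| > R`: if a
rational tensor which is invariant under the unipotent one parameter subgroups of the Zariski closure
of the monodromy group is a Hodge tensor at one point, it is a Hodge tensor at every point. -/
def FixedC (F : Family d) (lev : d → ℕ) (P : Matrix d d ℂ) (w : ℕ) (R : ℝ) : Prop :=
  ∀ (k : ℕ) (t : (Fin k → d) → ℚ),
    (∀ u ∈ Uni (F.Mo P), tA (fun β => (t β : ℂ)) u = fun β => (t β : ℂ)) →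
    ∀ x y : ℂ, R < ‖x‖ → R < ‖y‖ → F.HodgeAt lev P w x t → F.HodgeAt lev P w y t

/-- the point `w` is exceptional for the rational structure `P`, the set `A` of indices and the group
`M0`: some rational relation at `w` does not persist -/
def Exz (F : Family d) (M0 : Set (Matrix d d ℂ)) {k : ℕ} (A : Set (Fin k → d))
    (P : Matrix d d ℂ) (w : ℂ) : Prop :=
  ∃ t : (Fin k → d) → ℚ, (∀ a ∈ A, ∑ β, (t β : ℂ) * ∏ j, F.per P w (a j) (β j) = 0) ∧
    ∃ g ∈ M0, ∃ a ∈ A, ∑ β, (t β : ℂ) * ∏ j, (P *ᵥ (F.Y w * g) (a j)) (β j) ≠ 0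

end fam

/-! ### Number fields -/

section nf
variable {k : Type} [Field k]

/-- the subgroup of the Galois group of `ℚ` which fixes the number field `k` -/
def Gk (τ : k →+* AlgebraicClosure ℚ) : Subgroup GQ where
  carrier := {g | ∀ y : k, g (τ y) = τ y}
  one_mem' := fun _ => rfl
  mul_mem' := fun {a b} ha hb y => by
    change a (b (τ y)) = τ y
    rw [hb y, ha y]
  inv_mem' := fun {a} ha y => by
    change a.symm (τ y) = τ y
    rw [AlgEquiv.symm_apply_eq]
    exact (ha y).symm

/-- The representation `ρx` of the Galois group of the number field `k` is the specialisation at `t = x`,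
`x ∈ k`, of the representation `ρ` of the Galois group of `ℚ(t)`: there is a homomorphism `π` with
`π t = x` from the ring of the elements integral over `ℚ[t]` to the algebraic closure of `ℚ` such that
`ρx g = ρ σ` whenever `π ∘ σ = g ∘ π`. -/
def SpecK {G : Type*} [Group G] (ρ : GT →* G) (τ : k →+* AlgebraicClosure ℚ) (x : k)
    (ρx : Gk τ →* G) : Prop :=
  ∃ π : BB →+* AlgebraicClosure ℚ, π (algebraMap ℚ[X] BB X) = τ x ∧
    ∀ (σ : GT) (g : Gk τ), (∀ b : BB, π (σ • b) = (g : GQ) (π b)) → ρx g = ρ σ

end nf

end Pool.Agent.MTN
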