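import Pool.Agent.MTN.Stmts
import Pool.Agent.HIK.Stmts

/-! MTN: statements of the modules on densities and the final statement of N1. -/

set_option autoImplicit false

namespace Pool.Agent.MTN

open Matrix Polynomial NumberField Pool.Agent.MT100 Pool.Agent.MT100G Pool.Agent.MT100A
  Pool.Agent.MT100D Pool.Agent.Helper78_MT Pool.Agent.MTL Pool.Agent.MTN.H53 Pool.Agent.HIK

universe u

/-- PTH (small, as PTK): integers of a number field in `Pts`, if one conjugate is at least the square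
root of the house.
Proof. As PTK: the coefficients of the minimal polynomial of `a` over `ℤ` are at most
`(1 + H) ^ m * 2 ^ m ≤ H ^ (m + 1) ≤ ‖σ a‖ ^ (2 m + 2)` if the house `H` is large. -/
def PthStmt : Prop :=
  ∀ (k : Type) [Field k] [NumberField k] (σ : k →+* ℂ), ∃ H0 : ℝ,
    ∀ a : 𝓞 k, H0 ≤ house (a : k) → house (a : k) ^ (1 / 2 : ℝ) ≤ ‖σ a‖ →
      σ a ∈ Pts (Module.finrank ℚ k) (2 * Module.finrank ℚ k + 2)

/-- PID (medium): countably many sets of density zero are contained, up to the elements of small house,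
in one set of density zero.
Proof. Let `m = [k : ℚ]`, `c l X = #{a ∈ ⋃ (i ≤ l), S i, house a ≤ X} / X ^ m → 0` (DZC, finite
unions).  Choose natural numbers `N 0 ≤ N 1 ≤ ...` strictly increasing with `c l X ≤ 1 / (l + 1)` for
`X ≥ N l`.  Put `T = ⋃ l, {a ∈ S l | N l ≤ house a}`.  For `X` in `[N l, N (l + 1))`, the elements of
`T` of house at most `X` are in `⋃ (i ≤ l) S i` (for `i > l`, `N i ≥ N (l + 1) > X`), so their
proportion is at most `1 / (l + 1)`.  Use the criterion of DZC. -/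
def PidStmt : Prop :=
  ∀ (k : Type) [Field k] [NumberField k] (S : ℕ → Set (𝓞 k)), (∀ l, DZ k (S l)) →
    ∃ (T : Set (𝓞 k)) (N : ℕ → ℕ), DZ k T ∧
      ∀ (l : ℕ) (a : 𝓞 k), a ∈ S l → (N l : ℝ) ≤ house (a : k) → a ∈ T

/-- WDZ (small, uses AVW, SML, DZC, PTH): from windows at the points of `Pts` to density zero in the ring
of integers of every number field.
Proof. AVW with `Z M = {w | ‖σ w‖ < house w ^ (1/2)} ∪ {w | house w < H}` where `H` is larger than the
bound of PTH, than `1` and than `(R1 m a M) ^ 2`, `m = [k : ℚ]`, `a = 2 m + 2` (SML, DZC: the second set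
is finite, BOX); for `w ∉ Z M` the point `σ w` is in `Pts m a`, `‖σ w‖ ≥ R1 m a M` and
`σ (w - κ) = σ w - κ`. -/
def WdzStmt : Prop :=
  ∀ (S : Set ℂ) (C : ℕ) (R1 : ℕ → ℕ → ℕ → ℝ),
    (∀ (m a K : ℕ), ∀ x ∈ Pts m a, R1 m a K ≤ ‖x‖ →
      Nat.card {κ : ℕ // κ < K ∧ x - κ ∈ S} ≤ C) →
    ∀ (k : Type) [Field k] [NumberField k] (σ : k →+* ℂ), DZ k {a : 𝓞 k | σ a ∈ S}

/-- N1H: the Hodge side at the algebraic points. -/
def N1hStmt : Prop :=
  ∀ (d : Type) [Fintype d] [DecidableEq d] (F : Family d) (w : ℕ) (lev : d → ℕ), 1 ≤ w →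
    ∃ (C : ℕ) (R1 : ℕ → ℕ → ℕ → ℝ) (R0 : ℝ), ∀ P : Matrix d d ℂ, IsUnit P.det → F.IntM P →
      ∃ S : Set ℂ,
        (∀ (m a K : ℕ), ∀ x ∈ Pts m a, R1 m a K ≤ ‖x‖ →
          Nat.card {κ : ℕ // κ < K ∧ x - κ ∈ S} ≤ C) ∧
        (∀ (k : Type) [Field k] [NumberField k] (σ : k →+* ℂ), DZ k {a : 𝓞 k | σ a ∈ S}) ∧
        ∀ x : ℂ, x ∉ S → ∀ (E : Matrix d d ℚ) (V : ℕ → Submodule ℂ (d → ℂ)),
          FibreC F lev P w x E V →
          (∀ (K : Type u) [Field K] [CharZero K], mtGroup w V K = GenM (F.Mo P) w V K) ∧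
          ∀ R : ℝ, R0 ≤ R → R < ‖x‖ → FixedC F lev P w R →
            ∀ y : ℂ, R < ‖y‖ → ∀ (E' : Matrix d d ℚ) (V' : ℕ → Submodule ℂ (d → ℂ)),
            PolHodge w E' V' → F.HasFil lev P y V' →
            ∀ (K : Type u) [Field K] [CharZero K], mtGroup w V' K ⊆ mtGroup w V K

end Pool.Agent.MTN
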