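import Pool.Agent.MTN.Defs

/-! MTN: statements of the modules (points over number fields). -/

set_option autoImplicit false

namespace Pool.Agent.MTN

open Matrix Polynomial Pool.Agent.MT100 Pool.Agent.MT100G Pool.Agent.MT100A Pool.Agent.MT100D
  Pool.Agent.Helper78_MT Pool.Agent.MTL Pool.Agent.MTN.H53

universe u

/-- TRP (small): change of the point, `Pts`.
Proof. (1) If `f(w) = 0`, `w ≠ 0`, the polynomial `f(X - k)` for `|k| ≤ D` has the same degree, the root
`w + k`, and coefficients at most `(m + 1) 2 ^ m (1 + D) ^ m |w| ^ A ≤ (|w| / 2) ^ (A + 1) ≤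
|w + k| ^ (A + 1)` if `|w|` is large.  (2) A natural number `n ≥ 1` is a root of `X - n`. -/
def TrpStmt : Prop :=
  (∀ m A D : ℕ, ∃ R0 : ℝ, ∀ w ∈ Pts m A, R0 ≤ ‖w‖ → ∀ k : ℤ, |k| ≤ D → w + k ∈ Pts m (A + 1)) ∧
  ∀ n : ℕ, 1 ≤ n → (n : ℂ) ∈ Pts 1 1

/-- GFE (helper21): the lower bound for one solution vector, see PAPER_MTN.md section 2. -/
def GfeStmt : Prop :=
  ∀ m A : ℕ, ∃ η : ℝ, 0 < η ∧ ∀ (d : Type) [Fintype d] [DecidableEq d]
    (H K : Matrix d d (PowerSeries ℚ)) (N : Matrix d d ℤ) (δ : d → ℚ) (q : ℤ[X])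
    (B : Matrix d d ℤ[X]), GSysD H K N δ q B → ∀ u : d → ℤ,
    AA N δ *ᵥ (fun i => (u i : ℚ)) = 0 →
    ∃ R0 : ℝ, ∀ w ∈ Pts m A, R0 ≤ ‖w‖ → Lb η (hv H fun j => (u j : ℚ)) w

/-- GME (medium, model Helper2_MTD/Gfm.lean): the lower bound for all the entries of a fundamental matrix.
Proof. `gauge` (in Helper2_MTD/Gfm.lean) gives constant rational matrices `H0 K0 = 1` such that
`H' = K0 H` satisfies `GSysD`, `gsysd_kron` and the vector `u` (the identity matrix) make the entries of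
`H'` a solution vector `hv (H' ⊗ 1) u`.  So GFE gives `Lb η` for the entries of `H'` with the same `η`.
Transport: `H = H0 H'`, so for `a : d × d → ℚ(w)` one has `∑ a (i, j) ev (H i j) = ∑ a' (k, j)
ev (H' k j)` with `a' = H0ᵀ a` if `|1/w|` is in the common disc of absolute convergence (`AC` in
Helper43_MT100G/Bas.lean: `gtype_near`, `ac_sum`, `ac_mul`, `ac_C`).  The map `a ↦ H0ᵀ a` is a linear
automorphism `φ` of the space of vectors with coefficients in `ℚ(w)`; apply `Lb` for `H'` to `φ N`,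
`φ Z`: the dimensions are the same; if `p'` is a relation between the entries of `H'` then `p = K0ᵀ p'` is
one between those of `H`, and `φ` (values of `p`) = values of `p'`. -/
def GmeStmt : Prop :=
  ∀ m A : ℕ, ∃ η : ℝ, 0 < η ∧ ∀ (d : Type) [Fintype d] [DecidableEq d]
    (H : Matrix d d (PowerSeries ℚ)), IsGW H →
    ∃ R0 : ℝ, ∀ w ∈ Pts m A, R0 ≤ ‖w‖ → Lb η (fun x : d × d => H x.1 x.2) w

/-- VGC (medium, model Helper64_MTD/Vag.lean): the values of the translates at complex points.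
Proof. As VAGD, with `evC` (Helper43_MT100G/Bas.lean, Helper34_MTQ/Bin.lean `evC_bn`) in place of `ev`.
The only new point: `log (w - κ) - log w = log (1 - κ/w)` for ALL complex `w` with `|w| > 2 κ`: if `w`
is not real, `w` and `w - κ` have imaginary parts of the same sign, so the difference of the arguments
has absolute value less than `π` and both sides are logarithms of `1 - κ/w` with imaginary part in
`(-π, π)`; if `w < 0` both arguments are `π`; if `w > 0` everything is real. -/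
def VgcStmt : Prop :=
  ∀ (d : Type) [Fintype d] [DecidableEq d] (F : Family d) (κ : ℕ), ∃ R0 : ℝ, ∀ w : ℂ, R0 < ‖w‖ →
    F.Y (w - κ) * F.R w = tvC F κ w

/-- FSC (medium): formal relations persist at all complex points of large absolute value.
Proof. Let `D` be the one of FSAD, `p` a formal relation, `g i ∈ Zc`.  For complex `ζ` put
`ρ(ζ) = ed δ ζ * eN N ζ` (entire, `ρ(log w) = F.R w`, invertible, the inverse
`eN N (-ζ) * ed δ (-ζ)` is entire) and
`Ψ(ζ) = ∑ β, ∑ α, p β α (exp (-ζ)) ∏ s, (tvC F (κ s.1) (exp ζ) * ρ(ζ)⁻¹ * g s.1 * ρ(ζ)) (β s) (α s)`.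
`tvC F κ (exp ζ)` has the entries `evC (F.T κ i j) (exp (-ζ))`, holomorphic for `Re ζ > log R1` (power
series of G-type, GTYPE from TRGD; `exp (-ζ)` in the disc of convergence).  So `Ψ` is holomorphic on the
half plane `Re ζ > log R2` (an open convex, so preconnected, set).  For real `ζ > log R2`, `w = exp ζ`:
`tvC F κ w = F.Y (w - κ) * F.R w` (VGC), so `tvC F κ w * ρ(ζ)⁻¹ * g * ρ(ζ) = F.Y (w - κ) * g * F.R w`
and `Ψ(ζ) = 0` by FSAD.  The zeros accumulate, so `Ψ = 0` on the half plane (identity theorem,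
`AnalyticOnNhd.eqOn_zero_of_preconnected_of_frequently_eq_zero`).  For complex `w`, `|w| > R2`, take
`ζ = log w` and use VGC again.  `aeval w⁻¹ p` against `eval₂ (algebraMap ℚ ℂ) w⁻¹ p`: `aeval_def`. -/
def FscStmt : Prop :=
  ∀ (d : Type) [Fintype d] [DecidableEq d] (F : Family d), ∃ D : ℕ,
    ∀ (ι : Type) [Fintype ι] [DecidableEq ι] (κ : ι → ℕ), Sep D κ → ∀ k : ℕ,
    ∃ R0 : ℝ, ∀ p : (ι × Fin k → d) → (ι × Fin k → d) → ℚ[X],
      ∑ β, ∑ α, ((p β α : ℚ[X]) : PowerSeries ℚ) * ∏ s, F.T (κ s.1) (β s) (α s) = 0 →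
      ∀ w : ℂ, R0 < ‖w‖ → ∀ g : ι → Matrix d d ℂ, (∀ i, g i ∈ F.Zc) →
        tf (fun β α => aeval w⁻¹ (p β α)) (fun i => F.Y (w - κ i) * g i * F.R w) = 0

/-- AMP (STRONG, pure algebra): amplification.  `G` is a set of tuples of matrices on which the
polynomials form a domain, `A0 ∈ G`.  If for all degrees `e ≤ E` the space `N` of the relations of
multidegree `(e, ..., e)` with coefficients in `K` at the point `A0` and the space `Z` of the relations on
all of `G` satisfy `η codim Z ≤ codim N`, then every relation of multidegree `(k, ..., k)` at `A0` is a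
relation on `G`.
Proof. Let `σ = ι × d × d` and `M e ⊆ MvPolynomial σ K` the span of the monomials of degree `e` in each
block `{i} × d × d`: the monomials `∏ s : ι × Fin e, X (s.1, β s, α s)`.  The map
`Φ e : c ↦ ∑ β, ∑ α, c β α • ∏ s, X (s.1, β s, α s)` from the coefficient vectors onto `M e` is linear
and surjective, `tf c A = pv A (Φ c)` (coefficients mapped to `ℂ`).  So `codim Z = b e` and
`codim N = s e`, where `b e = dim M e / (M e ∩ I(G))`, `s e = dim M e / (M e ∩ I(A0))`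
(`I` = the polynomials which vanish there).  Suppose `c` is a relation of degree `k` at `A0` and not on
`G`, `P = Φ c`.  Multiplication by `P` maps `M e` to `M (e + k)` (concatenate: `ι × Fin (e + k)`), it maps
`M e` into `I(A0)`, and `P Q ∈ I(G)` only if `Q ∈ I(G)` (domain property; first for polynomials over
`ℂ`).  So `M e / (M e ∩ I(G))` embeds into `(M (e + k) ∩ I(A0)) / (M (e + k) ∩ I(G))`:
`b e ≤ b (e + k) - s (e + k) ≤ (1 - η) b (e + k)` if `e + k ≤ E`.  As `b 0 = 1` (`M 0 = K`, `1 ∉ I(G)`)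
this gives `η ≤ 1` and, if `k ≥ 1`, `1 ≤ (1 - η) ^ J * b (J k)` for `J k ≤ E`.  On the other hand
`b e ≤ dim M e ≤ (e + 1) ^ card σ` (number of monomials with all exponents at most `e`).  Choose `J` with
`(1 - η) ^ J (J k + 1) ^ card σ < 1` and `E = J k`: contradiction.  If `k = 0` then `tf c A` does not
depend on `A`. -/
def AmpStmt : Prop :=
  ∀ (ι d : Type) [Fintype ι] [DecidableEq ι] [Fintype d] [DecidableEq d] (η : ℝ) (k : ℕ), 0 < η →
    ∃ E : ℕ, ∀ (K : IntermediateField ℚ ℂ) (G : Set (ι → Matrix d d ℂ)) (A0 : ι → Matrix d d ℂ),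
    A0 ∈ G →
    (∀ p q : MvPolynomial (ι × d × d) ℂ, (∃ A ∈ G, pv A p ≠ 0) → (∃ A ∈ G, pv A q ≠ 0) →
      ∃ A ∈ G, pv A (p * q) ≠ 0) →
    (∀ e ≤ E, ∀ N Z : Submodule K ((ι × Fin e → d) × (ι × Fin e → d) → K),
      (∀ c, c ∈ N ↔ tf (fun β α => (c (β, α) : ℂ)) A0 = 0) →
      (∀ c, c ∈ Z ↔ ∀ A ∈ G, tf (fun β α => (c (β, α) : ℂ)) A = 0) →
      η * ((Fintype.card ((ι × Fin e → d) × (ι × Fin e → d)) : ℝ) - Module.finrank K Z) ≤
        (Fintype.card ((ι × Fin e → d) × (ι × Fin e → d)) : ℝ) - Module.finrank K N) →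
    ∀ c : (ι × Fin k → d) → (ι × Fin k → d) → K, tf (fun β α => (c β α : ℂ)) A0 = 0 →
      ∀ A ∈ G, tf (fun β α => (c β α : ℂ)) A = 0

/-- NMZ (medium, uses GME, VGC, FSC, AMP, TrgDStmt, SysDStmt): numerical relations at `1/w`, `w` algebraic,
persist under the core of the monodromy group.
Proof (model Helper97_MTD/Nma.lean). `D` from FSC.  `η` from GME for `(m, A)`, `E` from AMP for `η`, `k`.
For `e ≤ E` the matrix `kr (fun s : ι × Fin e => F.T (κ s.1))` is `IsGW` (TRGD, SYSD), so GME gives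
`R e` with `Lb η` for its entries `h (β, α) = ∏ s, F.T (κ s.1) (β s) (α s)`; also `R' e` from FSC.  Let
`R0` be larger than all of them, than the bound of VGC for all `κ i`, and such that all the
`F.T (κ i) a b` converge absolutely at `1/w` (`evC` of a product is the product: `ac_mul`, induction).
Let `w ∈ Pts m A`, `|w| ≥ R0`, `K = ℚ(w)`, `G = {(F.Y (w - κ i) * g i * F.R w)_i : g i ∈ M0}`,
`A0 = (tvC F (κ i) w)_i = (F.Y (w - κ i) * F.R w)_i` (VGC, `1 ∈ M0`).  Domain property of `G`: substitute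
(a polynomial in `A` is a polynomial in `g`), `Core.domain`.  For `e ≤ E`: the hypothesis of AMP is `Lb`
with the spaces `N`, `Z` (index `(β, α)`; `tf c A0 = ∑ c (β, α) evC (h (β, α)) w⁻¹`; `Z` contains the
values of the formal relations by FSC, since `M0 ⊆ F.mo univ ⊆ F.Zc`). -/
def NmzStmt : Prop :=
  ∀ (d : Type) [Fintype d] [DecidableEq d] (F : Family d), ∃ D : ℕ,
    ∀ (ι : Type) [Fintype ι] [DecidableEq ι] (κ : ι → ℕ), Sep D κ → ∀ k m A : ℕ,
    ∃ R0 : ℝ, ∀ M0 : Set (Matrix d d ℂ), Core (F.mo Set.univ) M0 → ∀ w ∈ Pts m A, R0 ≤ ‖w‖ →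
    ∀ c : (ι × Fin k → d) → (ι × Fin k → d) → ℂ,
      (∀ β α, c β α ∈ IntermediateField.adjoin ℚ {w}) →
      tf c (fun i => F.Y (w - κ i) * F.R w) = 0 →
      ∀ g : ι → Matrix d d ℂ, (∀ i, g i ∈ M0) →
        tf c (fun i => F.Y (w - κ i) * g i * F.R w) = 0

/-- ELZ (STRONG, model Helper64_MTD/Ela.lean, uses NMZ, TRP, BasDStmt, MoaDStmt): elimination of the
unknown rational structure in windows `w, w - 1, ..., w - (K - 1)`.
Proof. As `ela` with `greedy_group` (`G = M0`, which contains `1`): let `D0 = D + 1`, `D` from NMZ,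
`C = D0 * (card d ^ k) ^ 2`.  If more than `C` of the `κ' < K` give exceptional points `w - κ'`, more than
`(card d ^ k) ^ 2` of them are in one class modulo `D0`; take `(card d ^ k) ^ 2 + 1` of them, put
`κ i = κ' i + D0` (so `Sep D0 κ`) and apply NMZ with `A + 1` at the point `w + D0` (TRP), `w + D0 - κ i =
w - κ' i`.  The maximum of the bounds is over the finitely many `κ : Fin n' → Fin (K + D0)`.
NMZ speaks of `F.Y (w - κ) * F.R w`, so VGC is not needed. -/
def ElzStmt : Prop :=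
  ∀ (d : Type) [Fintype d] [DecidableEq d] (F : Family d) (k : ℕ) (A : Set (Fin k → d)),
    ∃ C : ℕ, ∀ m a K : ℕ, ∃ R0 : ℝ, ∀ M0 : Set (Matrix d d ℂ), Core (F.mo Set.univ) M0 →
    ∀ P : Matrix d d ℂ, IsUnit P.det → ∀ w ∈ Pts m a, R0 ≤ ‖w‖ →
      Nat.card {κ : ℕ // κ < K ∧ Exz F M0 A P (w - κ)} ≤ C

/-- MAZ (small, uses ELZ, `maa_point` of Helper53_MTN/MaaP.lean, TenStmt, TeuStmt, LieStmt, BasDStmt,
MoaDStmt): the Mumford-Tate groups.
Proof. Fix a core `M0` (`mo_isG`, `exists_core`), `A = {a | 2 w < ∑ lev (a j)}`, `k = 4`,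
`S = {x | Exz F M0 A P x}`; ELZ and `maa_point`. -/
def MazStmt : Prop :=
  ∀ (d : Type) [Fintype d] [DecidableEq d] (F : Family d) (w : ℕ) (lev : d → ℕ), 1 ≤ w →
    ∃ (C : ℕ) (R1 : ℕ → ℕ → ℕ → ℝ), ∀ P : Matrix d d ℂ, IsUnit P.det → F.IntM P →
    ∃ S : Set ℂ, (∀ (m a K : ℕ), ∀ x ∈ Pts m a, R1 m a K ≤ ‖x‖ →
        Nat.card {κ : ℕ // κ < K ∧ x - κ ∈ S} ≤ C) ∧
      ∀ x : ℂ, x ∉ S → ∀ (E : Matrix d d ℚ) (V : ℕ → Submodule ℂ (d → ℂ)),
        FibreC F lev P w x E V → ∀ (K : Type u) [Field K] [CharZero K],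
          mtGroup w V K = GenM (F.Mo P) w V K

/-- FPZ (medium, model Helper78_MTD/FinC.lean and Cst.lean): with the theorem of the fixed part the
Mumford-Tate group of a Hodge generic fibre contains all the others.
Proof. As (1b) of HodgeGenericFamilies, with `|x| > R` in place of `Re x > R`; nothing depends on the
half plane, only `IsUnit (F.Y x).det` for `|x| > R ≥ R0` is used (H K = 1, absolute convergence). -/
def FpzStmt : Prop :=
  ∀ (d : Type) [Fintype d] [DecidableEq d] (F : Family d) (w : ℕ) (lev : d → ℕ), 1 ≤ w →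
    ∃ R0 : ℝ, ∀ (P : Matrix d d ℂ) (R : ℝ), IsUnit P.det → F.IntM P → R0 ≤ R →
      FixedC F lev P w R → ∀ x y : ℂ, R < ‖x‖ → R < ‖y‖ →
      ∀ (E E' : Matrix d d ℚ) (V V' : ℕ → Submodule ℂ (d → ℂ)), FibreC F lev P w x E V →
      (∀ (K : Type u) [Field K] [CharZero K], mtGroup w V K = GenM (F.Mo P) w V K) →
      PolHodge w E' V' → F.HasFil lev P y V' →
      ∀ (K : Type u) [Field K] [CharZero K], mtGroup w V' K ⊆ mtGroup w V K

/-- PTK (medium): integers of a number field in `Pts`.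
Proof. `f = ∏ (X - σ' a)` over the embeddings `σ' : k →+* ℂ` (the characteristic polynomial, integral
coefficients: `NumberField`, `minpoly` is enough: the minimal polynomial over `ℤ` of `a`, degree at most
`m`, its complex roots are conjugates of `a`, absolute value at most the house `H`, coefficients at most
`(1 + H) ^ m`, see `NumberField.Embeddings.coeff_bdd_of_norm_le`, `Polynomial.coeff_bdd_of_roots_le`).
If `δ H ≤ |σ a|` and `H` is large, `(1 + H) ^ m * 2 ^ m ≤ (δ H) ^ (m + 1) ≤ |σ a| ^ (m + 1)`. -/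
def PtkStmt : Prop :=
  ∀ (k : Type) [Field k] [NumberField k] (σ : k →+* ℂ) (δ : ℝ), 0 < δ → ∃ H0 : ℝ,
    ∀ a : NumberField.RingOfIntegers k, H0 ≤ NumberField.house (a : k) →
      δ * NumberField.house (a : k) ≤ ‖σ a‖ →
      σ a ∈ Pts (Module.finrank ℚ k) (Module.finrank ℚ k + 1)

end Pool.Agent.MTN
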